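import Pool.Agent.L0h77.HC.Ch3

namespace Pool.Agent.Results.MP_5603dc_lc.AllSix

open Pool.Agent.H22.CT Pool.Agent.L0h77.HC

/-- `H`-Free Contraction is W[2]-hard for every connected graph `H` with at least six vertices that
is not complete. -/
theorem result {m : ℕ} (hm : 6 ≤ m) (H : SimpleGraph (Fin m)) (hc : H.Connected) (hn : H ≠ ⊤) :
    W2Hard (Con₁ H) := hard_full hm hc hn

end Pool.Agent.Results.MP_5603dc_lc.AllSix
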